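import Pool.Prelude.Def_F_d8722541
import Pool.Agent.helper33.AG.FIN

/-!
# MP_5a4a8e_nt: the inequality of Erdős on average, primes in almost all short intervals, and prime gaps

`G n` is the maximal sum of a pairwise coprime subset of `{1, .., n}` and `H n = ∑_{p < n} p + n π(√n)`
(definitions of the frozen statement). Suppose only that the mean value of `H n - G n` over `n ≤ N` is at most
`N^(κ + ε)` for every `ε > 0` and all large `N`, where `1 ≤ κ < 3/2`. Then `ζ` has a zero free half plane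
`Re s > t`, `t < 1`; the prime number theorem with a power saving holds in `(x, x + h]`, `1 ≤ h ≤ X`, for all
`x ∈ [X, 2X]` outside a set of measure `≤ X^(2κ - 1 + ε)/h`; and the sum of the squares of the gaps between
consecutive primes up to `X` is `≤ X^(2κ - 1 + ε)`. A power saving on average is equivalent to one for all `n`.
-/

set_option autoImplicit false

open N1f72dd46 Filter Asymptotics MeasureTheory

namespace Pool.Agent.Results.MP_5a4a8e_nt.OnAverage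

theorem result :
    ((∃ c : ℝ, 0 < c ∧ ∀ᶠ N : ℕ in atTop,
        ∑ n ∈ Finset.range (N + 1), ((H n : ℝ) - G n) ≤ (N : ℝ) ^ (5 / 2 - c)) ↔
      ∃ c : ℝ, 0 < c ∧ ∀ᶠ n : ℕ in atTop, (H n : ℝ) - (n : ℝ) ^ (3 / 2 - c : ℝ) ≤ (G n : ℝ)) ∧
    ∀ κ : ℝ, 1 ≤ κ → κ < 3 / 2 →
      (∀ ε : ℝ, 0 < ε → ∀ᶠ N : ℕ in atTop,
        ∑ n ∈ Finset.range (N + 1), ((H n : ℝ) - G n) ≤ (N : ℝ) ^ (1 + κ + ε)) →
      (∃ t : ℝ, t < 1 ∧ ∀ s : ℂ, t < s.re → riemannZeta s ≠ 0) ∧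
      (∀ ε : ℝ, 0 < ε → ∃ c : ℝ, 0 < c ∧ ∀ᶠ X : ℝ in atTop, ∀ h : ℝ, 1 ≤ h → h ≤ X →
        volume {x : ℝ | X ≤ x ∧ x ≤ 2 * X ∧
            h * X ^ (-c) < |Chebyshev.theta (x + h) - Chebyshev.theta x - h|} ≤
          ENNReal.ofReal (X ^ (2 * κ - 1 + ε) / h)) ∧
      ∀ ε : ℝ, 0 < ε → ∀ᶠ X : ℝ in atTop,
        ∑ p ∈ (Finset.Icc 1 ⌊X⌋₊).filter Nat.Prime, (((sInf {q : ℕ | p < q ∧ q.Prime} : ℕ) : ℝ) - p) ^ 2 ≤
          X ^ (2 * κ - 1 + ε) := by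
  refine ⟨Pool.Agent.AG.FIN_iff, fun κ h1 h2 hG => ?_⟩
  obtain ⟨m1, m2, m3⟩ := Pool.Agent.AG.all_MAIN κ h1 h2 hG
  refine ⟨m1, fun ε hε => ?_, m3⟩
  obtain ⟨c, hc, hX⟩ := m2 ε hε
  refine ⟨c, hc, ?_⟩
  filter_upwards [hX] with X h0 h hh1 hhX
  refine le_trans (le_of_eq ?_) (h0 h hh1 hhX)
  unfold Pool.Agent.AG.Bad
  congr 1
  ext x
  simp only [Set.mem_setOf_eq, Set.mem_Icc]
  tauto

/-- The inequality of question Q1 implies that the sum of the squares of the gaps between consecutive primes up to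
`X` is at most `X^(1 + ε)`, and the prime number theorem with a power saving in all intervals `(x, x + h]` with
`x ∈ [X, 2X]` outside a set of measure `≤ X^(1 + ε)/h`. -/
theorem q1_implies
    (hQ : ∃ o : ℕ → ℝ, o =o[atTop] (1 : ℕ → ℝ) ∧
        ∀ᶠ n : ℕ in atTop, (G n : ℝ) > (H n : ℝ) - (n : ℝ) ^ (1 + o n)) (ε : ℝ) (hε : 0 < ε) :
    (∃ c : ℝ, 0 < c ∧ ∀ᶠ X : ℝ in atTop, ∀ h : ℝ, 1 ≤ h → h ≤ X →
        volume {x : ℝ | X ≤ x ∧ x ≤ 2 * X ∧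
            h * X ^ (-c) < |Chebyshev.theta (x + h) - Chebyshev.theta x - h|} ≤
          ENNReal.ofReal (X ^ (1 + ε) / h)) ∧
      ∀ᶠ X : ℝ in atTop,
        ∑ p ∈ (Finset.Icc 1 ⌊X⌋₊).filter Nat.Prime, (((sInf {q : ℕ | p < q ∧ q.Prime} : ℕ) : ℝ) - p) ^ 2 ≤
          X ^ (1 + ε) := by
  have hH := Pool.Agent.QZ.HP.2 hQ
  have hA : ∀ δ : ℝ, 0 < δ → ∀ᶠ N : ℕ in atTop,
      ∑ n ∈ Finset.range (N + 1), ((H n : ℝ) - G n) ≤ (N : ℝ) ^ (1 + 1 + δ) := by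
    intro δ hδ
    have h1 := hH (δ / 2) (by positivity)
    have e1 : (1 : ℝ) + 0 / 2 + δ / 2 = 1 + δ / 2 := by ring
    rw [e1] at h1
    have h2 := Pool.Agent.AG.FIN_sum (1 + δ / 2) (δ / 2) (by positivity) (by positivity) h1
    have e2 : 1 + (1 + δ / 2) + δ / 2 = 1 + 1 + δ := by ring
    rw [e2] at h2
    exact h2
  obtain ⟨-, m2, m3⟩ := result.2 1 le_rfl (by norm_num) hA
  have e3 : 2 * (1 : ℝ) - 1 + ε = 1 + ε := by ring
  constructor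
  · have := m2 ε hε
    rw [e3] at this
    exact this
  · have := m3 ε hε
    rw [e3] at this
    exact this

end Pool.Agent.Results.MP_5a4a8e_nt.OnAverage
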