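import Pool.Prelude.Def_F_d8722541
import Pool.Agent.helper6.EV.All

/-!
# MP_5a4a8e_nt: maximal sums of pairwise coprime sets and a quasi Riemann hypothesis

`G n` is the maximal sum of a pairwise coprime subset of `{1, .., n}` and
`H n = ∑_{p < n} p + n π(√n)` (definitions of the frozen statement). A power saving in the bound
`G n > H n - n^(3/2 - o(1))` of Erdős and van Lint is equivalent to a zero free half plane
`Re s > θ`, `θ < 1`, of the Riemann zeta function. So the conjecture `G n > H n - n^(1 + o(1))`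
(question Q1) implies a quasi Riemann hypothesis.
-/

set_option autoImplicit false

open N1f72dd46 Filter Asymptotics

namespace Pool.Agent.Results.MP_5a4a8e_nt.QuasiRH

theorem result :
    (∃ c : ℝ, 0 < c ∧ ∀ᶠ n : ℕ in atTop, (H n : ℝ) - (n : ℝ) ^ (3 / 2 - c : ℝ) ≤ (G n : ℝ)) ↔
      ∃ θ : ℝ, θ < 1 ∧ ∀ s : ℂ, θ < s.re → riemannZeta s ≠ 0 :=
  Pool.Agent.EV.all_MAIN.1

/-- The statement of question Q1 implies the zero free half plane. -/
theorem q1_implies
    (h : ∃ o : ℕ → ℝ, o =o[atTop] (1 : ℕ → ℝ) ∧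
        ∀ᶠ n : ℕ in atTop, (G n : ℝ) > (H n : ℝ) - (n : ℝ) ^ (1 + o n)) :
    ∃ θ : ℝ, θ < 1 ∧ ∀ s : ℂ, θ < s.re → riemannZeta s ≠ 0 :=
  Pool.Agent.EV.all_MAIN.2 h

end Pool.Agent.Results.MP_5a4a8e_nt.QuasiRH
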