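import Pool.Prelude.Def_F_d8722541
import Pool.Agent.helper16.GS.F
import Pool.Agent.helper16.GS.S4

/-!
# MP_5a4a8e_nt: maximal sums of pairwise coprime sets and primes in short intervals

`G n` is the maximal sum of a pairwise coprime subset of `{1, .., n}` and `H n = ∑_{p < n} p + n π(√n)`
(definitions of the frozen statement). If `H n - G n ≤ n^(κ + ε)` for every `ε > 0` and all large `n`,
where `1 ≤ κ < 3/2`, then `θ(x + h) - θ(x) = h + O(x^(κ - 1/2 + ε) + h x^(-c))` for all `0 ≤ h ≤ x`,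
`θ(x) = ∑_{p ≤ x} log p`. For the conjecture of Erdős `κ = 1`: the prime number theorem holds in all intervals
of length `x^(1/2 + ε)`.
-/

set_option autoImplicit false

open N1f72dd46 Filter Asymptotics

namespace Pool.Agent.Results.MP_5a4a8e_nt.ShortIntervals

theorem result (κ : ℝ) (h1 : 1 ≤ κ) (h2 : κ < 3 / 2)
    (hG : ∀ ε : ℝ, 0 < ε → ∀ᶠ n : ℕ in atTop, (H n : ℝ) - (n : ℝ) ^ (κ + ε : ℝ) ≤ (G n : ℝ)) :
    ∃ c : ℝ, 0 < c ∧ ∀ ε : ℝ, 0 < ε → ∃ x0 : ℝ, ∀ x h : ℝ, x0 ≤ x → 0 ≤ h → h ≤ x →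
      |Chebyshev.theta (x + h) - Chebyshev.theta x - h| ≤ x ^ (κ - 1 / 2 + ε) + h * x ^ (-c) := by
  have hH : Pool.Agent.QZ.Hyp (2 * κ - 2) := by
    intro ε hε
    have h3 : 1 + (2 * κ - 2) / 2 + ε = κ + ε := by ring
    rw [h3]
    exact hG ε hε
  obtain ⟨c, hc, hm⟩ := Pool.Agent.GS.MAINω Pool.Agent.GS.S4 (2 * κ - 2) (by linarith) (by linarith) hH
  refine ⟨c, hc, fun ε hε => ?_⟩
  obtain ⟨x0, -, h0⟩ := hm ε hε
  refine ⟨x0, fun x h hx hh hhx => ?_⟩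
  have h3 : (1 + (2 * κ - 2)) / 2 + ε = κ - 1 / 2 + ε := by ring
  rw [← h3]
  exact h0 x h hx hh hhx

/-- The inequality of question Q1 implies that for every `ε > 0` and all large `x` there is a prime `p` with
`x < p ≤ x + x^(1/2 + ε)`. -/
theorem q1_implies
    (hQ : ∃ o : ℕ → ℝ, o =o[atTop] (1 : ℕ → ℝ) ∧
        ∀ᶠ n : ℕ in atTop, (G n : ℝ) > (H n : ℝ) - (n : ℝ) ^ (1 + o n)) (ε : ℝ) (hε : 0 < ε) :
    ∃ x0 : ℝ, ∀ x : ℝ, x0 ≤ x → ∃ p : ℕ, p.Prime ∧ x < p ∧ (p : ℝ) ≤ x + x ^ (1 / 2 + ε) := by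
  obtain ⟨x0, h0⟩ := Pool.Agent.GS.GAP Pool.Agent.GS.S4 0 le_rfl (by norm_num) (Pool.Agent.QZ.HP.2 hQ) ε hε
  refine ⟨x0, fun x hx => ?_⟩
  have h3 : (1 + (0 : ℝ)) / 2 + ε = 1 / 2 + ε := by ring
  rw [← h3]
  exact h0 x hx

end Pool.Agent.Results.MP_5a4a8e_nt.ShortIntervals
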