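import Pool.Prelude.Def_F_d8722541
import Pool.Agent.helper68.QZ.All

/-!
# MP_5a4a8e_nt: maximal sums of pairwise coprime sets and the zeros of the zeta function

`G n` is the maximal sum of a pairwise coprime subset of `{1, .., n}` and `H n = ∑_{p < n} p + n π(√n)`
(definitions of the frozen statement). If `H n - G n ≤ n^(κ + ε)` for every `ε > 0` and all large `n`,
where `1 ≤ κ < 3/2`, then for every `σ > Θ(κ) = (2κ - 5 + √(4κ² - 4κ + 33))/4` the zeta function has only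
finitely many zeros with real part `≥ σ`. For the conjecture of Erdős `κ = 1`, `Θ(1) = (√33 - 3)/4 = 0.6861..`
-/

set_option autoImplicit false

open N1f72dd46 Filter Asymptotics

namespace Pool.Agent.Results.MP_5a4a8e_nt.ZerosTheta

theorem result (κ : ℝ) (h1 : 1 ≤ κ) (h2 : κ < 3 / 2)
    (h : ∀ ε : ℝ, 0 < ε → ∀ᶠ n : ℕ in atTop, (H n : ℝ) - (n : ℝ) ^ (κ + ε : ℝ) ≤ (G n : ℝ))
    (σ : ℝ) (hσ : (2 * κ - 5 + Real.sqrt (4 * κ ^ 2 - 4 * κ + 33)) / 4 < σ) :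
    {ρ : ℂ | riemannZeta ρ = 0 ∧ σ ≤ ρ.re}.Finite := by
  refine Pool.Agent.QZ.all_MAIN (2 * κ - 2) (by linarith) (by linarith) ?_ σ ?_
  · intro ε hε
    have h3 : 1 + (2 * κ - 2) / 2 + ε = κ + ε := by ring
    rw [h3]
    exact h ε hε
  · unfold Pool.Agent.QZ.Th
    have h3 : 33 + 2 * (2 * κ - 2) + (2 * κ - 2) ^ 2 = 4 * κ ^ 2 - 4 * κ + 33 := by ring
    rw [h3]
    have h4 : 2 * κ - 2 - 3 = 2 * κ - 5 := by ring
    rw [h4]
    exact hσ

/-- The inequality of question Q1 implies that for every `σ > (√33 - 3)/4` there are only finitely many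
zeros with real part `≥ σ`. -/
theorem q1_implies
    (h : ∃ o : ℕ → ℝ, o =o[atTop] (1 : ℕ → ℝ) ∧
        ∀ᶠ n : ℕ in atTop, (G n : ℝ) > (H n : ℝ) - (n : ℝ) ^ (1 + o n))
    (σ : ℝ) (hσ : (Real.sqrt 33 - 3) / 4 < σ) : {ρ : ℂ | riemannZeta ρ = 0 ∧ σ ≤ ρ.re}.Finite := by
  refine Pool.Agent.QZ.all_MAIN 0 le_rfl (by norm_num) (Pool.Agent.QZ.HP.2 h) σ ?_
  unfold Pool.Agent.QZ.Th
  have h3 : (33 : ℝ) + 2 * 0 + 0 ^ 2 = 33 := by norm_num
  rw [h3]
  linarith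

end Pool.Agent.Results.MP_5a4a8e_nt.ZerosTheta
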